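import Pool.Agent.H11.Bent3

namespace Pool.Agent.Results.MP_47443c_co.NearPowers

open Pool.Agent.H11.Bent

theorem result :
    ∀ k : ℕ, (∃ e : ℕ, k = 2 ^ e + 1 ∨ k = 2 ^ e + 2) → ∃ N : ℕ, 2 ≤ N ∧ ∀ n : ℕ, N < n → Even n →
      ∃ S : Finset (Finset (Fin n)), (∀ s ∈ S, s.card = k) ∧
        ∀ a : Fin n → ZMod 2,
          (∑ x : Fin n → ZMod 2,
              (-1 : ℤ) ^ (ZMod.val ((∑ s ∈ S, ∏ i ∈ s, x i) + ∑ i : Fin n, a i * x i))) ^ 2
            = 2 ^ n := by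
  intro k hk
  have : ∃ N, ∀ m, N ≤ m → HB (Fin (2 * m)) k := by
    obtain ⟨e, rfl | rfl⟩ := hk
    · exact all1 e
    · rcases Nat.eq_zero_or_pos e with rfl | he
      · exact all1 1
      · exact all2 e he
  obtain ⟨N, hN⟩ := this
  refine ⟨2 * N + 2, by omega, fun n hn he => ?_⟩
  obtain ⟨m, hm⟩ := he
  obtain rfl : n = 2 * m := by omega
  obtain ⟨S, hS, h⟩ := hN m (by omega)
  refine ⟨S, hS, fun a => ?_⟩
  simpa [chi] using h a

end Pool.Agent.Results.MP_47443c_co.NearPowers
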